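import Pool.Agent.Helper65.KG.Goals

/-!
# Project KG, packet NM7: numbers for N = 7
-/

set_option autoImplicit false

namespace Pool.Agent.Helper15.KG.NM7

open Pool.Agent.Helper70.KN Pool.Agent.Helper65.KG

theorem t : S_NM7 := by
  obtain ⟨k0, k1, k2⟩ := pKP 7 (by norm_num)
  refine ⟨13 / 10, 89 / 200, by norm_num, fun σ hσ => ?_, by norm_num [th], by norm_num⟩
  rcases hσ.eq_or_lt with h | h
  · rw [← h, k0]
    norm_num
  rcases le_total σ 2 with h2 | h2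
  · rw [k1 σ h h2, le_div_iff₀ h]
    obtain ⟨u, hu⟩ : ∃ u : ℝ, u = 1 - σ / 2 := ⟨_, rfl⟩
    have hs : σ = 2 * (1 - u) := by linarith
    have hu0 : 0 ≤ u := by linarith
    have hu1 : 0 ≤ 1 - u := by linarith
    have hp : 0 ≤ u ^ 6 + u ^ 5 + u ^ 4 + u ^ 3 + u ^ 2 - 78 / 100 * u + 18 / 100 := by
      have h3 : 0 ≤ u ^ 6 + u ^ 5 + u ^ 4 + u ^ 3 := by positivity
      nlinarith [sq_nonneg (u - 39 / 100)]
    have h4 := mul_nonneg hu1 hp
    rw [← hu, hs]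
    have h5 : (1 - u ^ 7) - (13 / 10 - 89 / 200 * (2 * (1 - u))) * (2 * (1 - u)) =
        (1 - u) * (u ^ 6 + u ^ 5 + u ^ 4 + u ^ 3 + u ^ 2 - 78 / 100 * u + 18 / 100) := by ring
    linarith
  · rw [k2 σ h2, le_div_iff₀ h]
    nlinarith [sq_nonneg (σ - 130 / 89)]

end Pool.Agent.Helper15.KG.NM7
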